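import Pool.Agent.Lib.MP_064793_lc.Internal
import Pool.Agent.Lib.MP_064793_lc.Transfer

/-! # Externally definable sets of invariant types via coheirs

Positive answer to Q1 of MP_064793_lc (a question of Simon): in a NIP theory, if `M ≺⁺ N` and
`tp(a/N)` is `M`-invariant, then for every `φ(x;y) ∈ L(M)` there are a formula `ψ(x;z)` and a
tuple `b` with `tp(b/N)` finitely satisfiable in `M` such that `φ(N;a) = ψ(N;b)`.
-/

namespace Pool.Agent.Results.MP_064793_lc.CoheirRepresentation

open FirstOrder FirstOrder.Language Set MP064793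

universe u v w

variable (L : FirstOrder.Language.{u, v})

/-- The `L`-formula `φ(x;y)` has the independence property in `U`: for every `n` there are
tuples `x_0, …, x_{n-1}` and tuples `y_η`, `η ⊆ n`, with `φ(x_i; y_η)` iff `i ∈ η`. -/
def HasIP (U : Type w) [L.Structure U] {k l : ℕ} (φ : L.Formula (Fin k ⊕ Fin l)) : Prop :=
  ∀ n : ℕ, ∃ (x : Fin n → Fin k → U) (y : Set (Fin n) → Fin l → U), ∀ i η,
    φ.Realize (Sum.elim (x i) (y η)) ↔ i ∈ η

/-- The complete theory of `U` is NIP: no `L`-formula `φ(x;y)` (in finite tuples of variables)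
has the independence property. -/
def IsNIP (U : Type w) [L.Structure U] : Prop :=
  ∀ (k l : ℕ) (φ : L.Formula (Fin k ⊕ Fin l)), ¬ HasIP L U φ

/-- `U` is `κ`-saturated: for every set `A` of fewer than `κ` parameters, every set of formulas
over `A` in finitely many variables which is finitely satisfiable in `U` is realised in `U`. -/
def IsSaturated (κ : Cardinal.{w}) (U : Type w) [L.Structure U] : Prop :=
  ∀ A : Set U, Cardinal.mk A < κ → ∀ (n : ℕ) (p : Set (L[[A]].Formula (Fin n))),
    (∀ p₀ : Finset (L[[A]].Formula (Fin n)), (p₀ : Set _) ⊆ p →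
      ∃ x : Fin n → U, ∀ ψ ∈ p₀, ψ.Realize x) →
    ∃ x : Fin n → U, ∀ ψ ∈ p, ψ.Realize x

variable {U : Type w} [L.Structure U]

/-- `tp(c/A) = tp(c'/A)`. -/
def SameType (A : Set U) {n : ℕ} (c c' : Fin n → U) : Prop :=
  ∀ θ : L[[A]].Formula (Fin n), θ.Realize c ↔ θ.Realize c'

/-- `tp(a/B)` is `A`-invariant: for every `L`-formula `χ(x;w)` and all tuples `c, c'` from `B`
with `tp(c/A) = tp(c'/A)` we have `χ(a;c)` iff `χ(a;c')`. -/
def IsInvariant (A B : Set U) {l : ℕ} (a : Fin l → U) : Prop :=
  ∀ (n : ℕ) (χ : L.Formula (Fin l ⊕ Fin n)) (c c' : Fin n → U), (∀ i, c i ∈ B) →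
    (∀ i, c' i ∈ B) → SameType L A c c' →
    (χ.Realize (Sum.elim a c) ↔ χ.Realize (Sum.elim a c'))

/-- `tp(b/B)` is finitely satisfiable in `A`: every formula with parameters in `B` satisfied
by `b` is satisfied by a tuple from `A`. -/
def IsFinSat (A B : Set U) {k : ℕ} (b : Fin k → U) : Prop :=
  ∀ χ : L[[B]].Formula (Fin k), χ.Realize b → ∃ m : Fin k → U, (∀ i, m i ∈ A) ∧ χ.Realize m

variable {L}

/-- Only `M`-many parameters: if `N ⊇ M` and `C` is finite then `|M ∪ C| ≤ |M|` (if `M` is
finite then `N = M`). -/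
theorem card_union_le (M N : L.ElementarySubstructure U) (hMN : (M : Set U) ⊆ N)
    (C : Set N) (hC : C.Finite) :
    Cardinal.mk ↥({x : N | (x : U) ∈ M} ∪ C) ≤ Cardinal.mk M := by
  have h1 : Cardinal.mk ↥({x : N | (x : U) ∈ M} : Set N) ≤ Cardinal.mk M := by
    refine Cardinal.mk_le_of_injective
      (f := fun x : ({x : N | (x : U) ∈ M} : Set N) => (⟨((x : N) : U), x.2⟩ : M)) ?_
    intro x y hxy
    have : ((x : N) : U) = ((y : N) : U) := congrArg (fun z : M => (z : U)) hxy
    exact Subtype.ext (Subtype.ext this)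
  rcases finite_or_infinite M with hfin | hinf
  · -- finite case
    have hM'fin : ({x : N | (x : U) ∈ M} : Set N).Finite := by
      refine Set.Finite.of_finite_image (f := Subtype.val) ?_ Subtype.val_injective.injOn
      refine (Set.toFinite (M : Set U)).subset ?_
      rintro _ ⟨x, hx, rfl⟩
      exact hx
    have huniv : ({x : N | (x : U) ∈ M} : Set N) = univ := by
      by_contra hne
      obtain ⟨x, hx⟩ := (Set.ne_univ_iff_exists_notMem _).1 hne
      have hdef : ({x : N | (x : U) ∈ M} : Set N).Definable L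
          {y : Fin 1 → N | y 0 ∉ ({x : N | (x : U) ∈ M} : Set N)} := by
        have : {y : Fin 1 → N | y 0 ∉ ({x : N | (x : U) ∈ M} : Set N)} =
            (⋃ m : ({x : N | (x : U) ∈ M} : Set N), {y : Fin 1 → N | y 0 = m})ᶜ := by
          ext y
          constructor
          · intro hy hy'
            obtain ⟨m, hm⟩ := mem_iUnion.1 hy'
            have hm' : y 0 = m := hm
            exact hy (by rw [hm']; exact m.2)
          · intro hy hy'
            exact hy (mem_iUnion.2 ⟨⟨y 0, hy'⟩, rfl⟩)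
        rw [this]
        have : Finite ({x : N | (x : U) ∈ M} : Set N) := hM'fin
        refine (definable_iUnion_of_finite (fun m => ?_)).compl
        refine ⟨(Term.var 0).equal (L.con m).term, ?_⟩
        ext y
        simp
      obtain ⟨m, hm, hmM⟩ := mpoints_of_le M N hMN (Fin 1) _ hdef ⟨fun _ => x, hx⟩
      exact hm (hmM 0)
    rw [huniv, univ_union, ← huniv]
    exact h1
  · refine (Cardinal.mk_union_le _ _).trans ?_
    refine (add_le_add h1 (Cardinal.lt_aleph0_iff_set_finite.2 hC).le).trans ?_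
    exact (Cardinal.add_eq_left (Cardinal.aleph0_le_mk _) (Cardinal.aleph0_le_mk _)).le

theorem result (hNIP : IsNIP L U) (M N : L.ElementarySubstructure U)
    (hMN : (M : Set U) ⊆ N)
    (hN : IsSaturated L (Order.succ (Cardinal.mk M)) N)
    (hU : IsSaturated L (Order.succ (Cardinal.mk N)) U)
    {l n : ℕ} (a : Fin l → U) (ha : IsInvariant L (M : Set U) N a)
    (φ : L[[(M : Set U)]].Formula (Fin n ⊕ Fin l)) :
    ∃ (k : ℕ) (b : Fin k → U) (ψ : L.Formula (Fin n ⊕ Fin k)),
      IsFinSat L (M : Set U) N b ∧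
      ∀ c : Fin n → U, (∀ i, c i ∈ N) →
        (φ.Realize (Sum.elim c a) ↔ ψ.Realize (Sum.elim c b)) := by
  classical
  have hMp : MPoints L ({x : N | (x : U) ∈ M} : Set N) := mpoints_of_le M N hMN
  have hNIPU : NIPDef L U := nipDef_of_formula hNIP
  have hNIPN : NIPDef L N := nipDef_substructure N hNIPU
  have hsat : ∀ C : Set N, C.Finite → SatOver L (({x : N | (x : U) ∈ M} : Set N) ∪ C) :=
    fun C hC => satOver_of_formula
      (hN _ (Order.lt_succ_of_le (card_union_le M N hMN C hC)))
  have hsatU : SatOver L (N : Set U) := satOver_of_formula (hU _ (Order.lt_succ _))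
  -- the set to be represented
  set Φ : Set ((Fin n ⊕ Fin l) → U) := {z | φ.Realize z} with hΦ
  have hΦdef : (M : Set U).Definable L Φ := ⟨φ, rfl⟩
  set D : Set (Fin n → N) := {x | Sum.elim (fun i => (x i : U)) a ∈ Φ} with hD
  obtain ⟨k0, c0, χ, hc0, hχ⟩ := exists_fin_param hΦdef
  -- invariance
  have hDinv : ∀ x y : Fin n → N, (∀ S, ({x : N | (x : U) ∈ M} : Set N).Definable L S →
      (x ∈ S ↔ y ∈ S)) → (x ∈ D ↔ y ∈ D) := by
    intro x y hxy
    let g : (Fin n ⊕ Fin l) ⊕ Fin k0 → Fin l ⊕ Fin (n + k0) :=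
      Sum.elim (Sum.elim (fun i => Sum.inr (finSumFinEquiv (Sum.inl i))) Sum.inl)
        (fun i => Sum.inr (finSumFinEquiv (Sum.inr i)))
    have key : ∀ x : Fin n → N, x ∈ D ↔ (χ.relabel g).Realize
        (Sum.elim a (Sum.elim (fun i => (x i : U)) c0 ∘ finSumFinEquiv.symm)) := by
      intro x
      rw [hD, Set.mem_ofPred_eq, hχ, Formula.realize_relabel]
      refine iff_of_eq (congrArg _ ?_)
      funext z
      rcases z with (z | z) | z <;> simp [g]
    have hmem : ∀ x : Fin n → N, ∀ i, (Sum.elim (fun i => (x i : U)) c0 ∘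
        finSumFinEquiv.symm : Fin (n + k0) → U) i ∈ N := by
      intro x i
      simp only [Function.comp_apply]
      rcases finSumFinEquiv.symm i with j | j
      · exact (x j).2
      · exact hMN (hc0 j)
    rw [key, key]
    refine ha _ _ _ _ (hmem x) (hmem y) ?_
    intro θ
    have hT : (M : Set U).Definable L {v : Fin n → U | θ.Realize
        (Sum.elim v c0 ∘ finSumFinEquiv.symm)} := by
      have h1 : (M : Set U).Definable L {z : Fin (n + k0) → U | θ.Realize z} := ⟨θ, rfl⟩
      exact Definable.fiber (h1.preimage_comp (finSumFinEquiv.symm :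
        Fin (n + k0) → Fin n ⊕ Fin k0)) c0 hc0
    exact hxy _ (definable_restrict N _ hMN _ hT)
  -- the shattering relations
  set ΦN : Set ((Fin n ⊕ Fin l) → N) := {z | (fun i => (z i : U)) ∈ Φ} with hΦN
  have hΦNdef : ({x : N | (x : U) ∈ M} : Set N).Definable L ΦN :=
    definable_restrict N _ hMN _ hΦdef
  obtain ⟨K, hK⟩ := hNIPN _ _ _ ΦN hΦNdef
  have hcomp : ∀ (p : Fin K × Fin n → N) (z : Fin l → N) (i : Fin K),
      (Sum.elim p z ∘ (Sum.map (fun j => (i, j)) id) : Fin n ⊕ Fin l → N) =
        Sum.elim (fun j => p (i, j)) z := by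
    intro p z i
    funext y
    rcases y with y | y <;> rfl
  have hHdef : ∀ η : Set (Fin K), ({x : N | (x : U) ∈ M} : Set N).Definable L
      {p : Fin K × Fin n → N | ∃ z : Fin l → N, Sum.elim p z ∈ ⋂ i : Fin K,
        {y : (Fin K × Fin n) ⊕ Fin l → N |
          y ∘ (Sum.map (fun j => (i, j)) id) ∈ (if i ∈ η then ΦN else ΦNᶜ)}}ᶜ := by
    intro η
    refine (Definable.exists_of_finite (definable_iInter_of_finite (fun i => ?_))).compl
    refine Definable.preimage_comp (Sum.map (fun j => (i, j)) id) ?_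
    split_ifs
    · exact hΦNdef
    · exact hΦNdef.compl
  obtain ⟨β, hβ, ξ, hξ, hξF⟩ := internal L hMp hsat hNIPN D hDinv K _ hHdef
    (by
      intro p
      have := hK (fun i j => p (i, j))
      push Not at this
      obtain ⟨η, hη⟩ := this
      refine ⟨η, ?_⟩
      rintro ⟨z, hz⟩
      obtain ⟨t, ht⟩ := hη z
      have hzt := mem_iInter.1 hz t
      rw [Set.mem_ofPred_eq, hcomp] at hzt
      by_cases h : t ∈ η
      · simp only [h, if_true] at hzt
        tauto
      · simp only [h, if_false] at hzt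
        tauto)
    (by
      intro η p hp hpat
      have hT : (N : Set U).Definable L (⋂ i : Fin K, {y : Fin l → U |
          Sum.elim (fun j => (p (i, j) : U)) y ∈ (if i ∈ η then Φ else Φᶜ)}) := by
        refine definable_iInter_of_finite (fun i => ?_)
        refine Definable.fiberLeft ?_ _ (fun j => (p (i, j)).2)
        split_ifs
        · exact hΦdef.mono hMN
        · exact (hΦdef.mono hMN).compl
      obtain ⟨m, hm, hmN⟩ := mpoints_of_elementary N _ _ hT ⟨a, by
        refine mem_iInter.2 (fun i => ?_)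
        have := hpat i
        rw [hD, Set.mem_ofPred_eq] at this
        by_cases h : i ∈ η
        · simp only [Set.mem_ofPred_eq, h, if_true]
          exact this.2 h
        · simp only [Set.mem_ofPred_eq, h, if_false]
          exact fun hcon => h (this.1 hcon)⟩
      refine hp ⟨fun i => ⟨m i, hmN i⟩, mem_iInter.2 (fun i => ?_)⟩
      rw [Set.mem_ofPred_eq, hcomp]
      have hmi := mem_iInter.1 hm i
      have hΦNi : (Sum.elim (fun j => p (i, j)) (fun i => (⟨m i, hmN i⟩ : N)) :
          Fin n ⊕ Fin l → N) ∈ ΦN ↔ Sum.elim (fun j => (p (i, j) : U)) m ∈ Φ := by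
        rw [hΦN, Set.mem_ofPred_eq]
        refine iff_of_eq (congrArg (· ∈ Φ) ?_)
        funext z
        rcases z with z | z <;> rfl
      by_cases h : i ∈ η
      · simp only [Set.mem_ofPred_eq, h, if_true] at hmi ⊢
        exact hΦNi.2 hmi
      · simp only [Set.mem_ofPred_eq, h, if_false] at hmi ⊢
        exact fun hcon => hmi (hΦNi.1 hcon))
  -- turn `ξ` into a formula without parameters
  obtain ⟨k1, c1, ψ0, hc1, hψ0⟩ := exists_fin_param hξ
  obtain ⟨k, ⟨e⟩⟩ := Finite.exists_equiv_fin (β ⊕ Fin k1)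
  let g : (Fin n ⊕ β) ⊕ Fin k1 → Fin n ⊕ Fin k :=
    Sum.elim (Sum.elim Sum.inl (fun b => Sum.inr (e (Sum.inl b))))
      (fun i => Sum.inr (e (Sum.inr i)))
  have hfinF : ∀ F : Set (Fin n → N), F.Finite → ∃ m : Fin k → U, (∀ i, m i ∈ M) ∧
      ∀ x ∈ F, ((ψ0.relabel g).Realize (Sum.elim (fun i => (x i : U)) m) ↔ x ∈ D) := by
    intro F hF
    obtain ⟨v, hvM, hv⟩ := hξF F hF
    refine ⟨fun i => ((Sum.elim v c1 (e.symm i) : N) : U), ?_, ?_⟩
    · intro i
      change ((Sum.elim v c1 (e.symm i) : N) : U) ∈ M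
      rcases e.symm i with j | j
      · exact hvM j
      · exact hc1 j
    · intro x hx
      rw [← hv x hx, hψ0, Formula.realize_relabel, ← N.subtype.map_formula]
      refine iff_of_eq (congrArg _ ?_)
      funext z
      rcases z with (z | z) | z <;> simp [g]
  -- compactness in `U`
  let Fam : (Fin n → N) ⊕ {S : Set (Fin k → U) // (N : Set U).Definable L S ∧
      ∀ m ∈ S, ¬ ∀ i, m i ∈ M} → Set (Fin k → U) :=
    Sum.elim (fun x => {z | (ψ0.relabel g).Realize (Sum.elim (fun i => (x i : U)) z) ↔ x ∈ D})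
      (fun S => (S : Set (Fin k → U))ᶜ)
  obtain ⟨b, hb⟩ := hsatU (Fin k) _ Fam (by
    rintro (x | S)
    · have h1 : (N : Set U).Definable L
          {z : Fin k → U | (ψ0.relabel g).Realize (Sum.elim (fun i => (x i : U)) z)} := by
        have h2 : (N : Set U).Definable L {z : Fin n ⊕ Fin k → U | (ψ0.relabel g).Realize z} :=
          (empty_definable_iff.2 ⟨_, rfl⟩).mono (empty_subset _)
        exact Definable.fiberLeft h2 _ (fun i => (x i).2)
      by_cases hx : x ∈ D
      · convert h1 using 1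
        ext z
        simp [Fam, hx]
      · convert h1.compl using 1
        ext z
        simp [Fam, hx]
    · exact S.2.1.compl) (by
    intro s
    obtain ⟨m, hmM, hm⟩ := hfinF (s.toLeft : Set (Fin n → N)) s.toLeft.finite_toSet
    refine ⟨m, mem_iInter₂.2 ?_⟩
    rintro (x | S) hs
    · exact hm x (by simpa using hs)
    · exact fun hmS => S.2.2 m hmS hmM)
  refine ⟨k, b, ψ0.relabel g, ?_, ?_⟩
  · intro θ hθ
    by_contra hcon
    push Not at hcon
    have := mem_iInter.1 hb (Sum.inr ⟨{z | θ.Realize z}, ⟨θ, rfl⟩,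
      fun m hm hmM => hcon m hmM hm⟩)
    exact this hθ
  · intro c hc
    have := mem_iInter.1 hb (Sum.inl (fun i => ⟨c i, hc i⟩))
    exact this.symm

end Pool.Agent.Results.MP_064793_lc.CoheirRepresentation
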